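import Mathlib
import Pool.Agent.R762.Bike3

/-!
# Closed rear bicycle tracks over convex front tracks have rotation number one

Idea of the proof. Let `φ` be the direction angle of the front track and `ω = θ - φ`. The equation
`ℓ ω' = sin ω - ℓ φ'` shows that `ω` crosses the multiples of `π` only downwards, so `ρ ≤ 1`. While `ω` goes
from `π` down to `0` modulo `2π` the front wheel turns by at least `π`; this excludes `ρ < 0`. If `ρ = 0`,
the bicycle turns clockwise while `ω` goes from `0` to `-π` and then back counterclockwise. One matches the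
times `s` of the first part with the times `τ(s)` of the second part at which the bicycle has the same
direction. The turn `φ(τ(s)) - φ(s)` of the front wheel decreases from `2π` to `0`, so it is `π` at exactly
one `s = p`. Then the component of `Γ(τ(s)) - Γ(s)` perpendicular to the direction of the bicycle at
the time `p` is strictly decreasing in `s`, but it vanishes for the first and for the last `s`.
-/

set_option autoImplicit false

namespace Pool.Agent.Results.MP_b4625f_gt.RotationNumber

open Real Set
open scoped ContDiff

/-- `Γ = (X, Y)` is a smooth, unit-speed, simple, strictly convex closed curve with period (length) `L`,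
traversed counterclockwise. Strict convexity and the orientation say that every point of the curve
other than `Γ(t)` is strictly to the left of the tangent line at `Γ(t)`. -/
structure ConvexFrontTrack (X Y : ℝ → ℝ) (L : ℝ) : Prop where
  pos : 0 < L
  smoothX : ContDiff ℝ ∞ X
  smoothY : ContDiff ℝ ∞ Y
  periodicX : ∀ t, X (t + L) = X t
  periodicY : ∀ t, Y (t + L) = Y t
  unitSpeed : ∀ t, deriv X t ^ 2 + deriv Y t ^ 2 = 1
  simple : ∀ s ∈ Ico 0 L, ∀ t ∈ Ico 0 L, X s = X t → Y s = Y t → s = t
  convex : ∀ s t, (X s ≠ X t ∨ Y s ≠ Y t) →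
    0 < deriv X t * (Y s - Y t) - deriv Y t * (X s - X t)

/-- **Answer to Q1.** Let `Γ = (X, Y)` be a smooth simple strictly convex closed front track
(counterclockwise, unit speed, length `L`), let `ℓ > 0`, and let `θ` be a solution of the bicycle equation
`ℓ θ' = X' sin θ - Y' cos θ` whose rear track closes up, `θ(L) - θ(0) = 2 π ρ` with an integer `ρ`. Then
its rotation number is `ρ = 1`. -/
theorem result (X Y : ℝ → ℝ) (L ℓ : ℝ) (hΓ : ConvexFrontTrack X Y L) (hℓ : 0 < ℓ) (θ : ℝ → ℝ)
    (hθ : ∀ t, HasDerivAt θ ((deriv X t * sin (θ t) - deriv Y t * cos (θ t)) / ℓ) t) (ρ : ℤ)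
    (hρ : θ L - θ 0 = 2 * π * ρ) : ρ = 1 := by
  have hC : Pool.Agent.R762.Bike.Convex X Y L :=
    ⟨hΓ.pos, hΓ.smoothX, hΓ.smoothY, hΓ.periodicX, hΓ.periodicY, fun t => by
      by_contra hcon
      push Not at hcon
      have := hΓ.unitSpeed t
      rw [hcon.1, hcon.2] at this
      norm_num at this, hΓ.simple, hΓ.convex⟩
  obtain ⟨v, φ, κ, T⟩ := hC.track
  refine Pool.Agent.R762.Bike.rho_eq_one T hℓ (θ := θ) (fun t => ?_) (by linarith)
  refine (hθ t).congr_deriv ?_
  rw [(T.dX t).deriv, (T.dY t).deriv, Real.sin_sub]
  ring

end Pool.Agent.Results.MP_b4625f_gt.RotationNumber
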